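import Pool.Agent.Work.MP_1ba01c_an.Core

/-!
# MP_1ba01c_an: adjacencies of the Josephson phase-lock areas are not collinear

For every `ω ≥ 100000` the first adjacencies `A_{1,1}`, `A_{2,1}`, `A_{3,1}` are defined, lie on the
lines `B = ω`, `B = 2ω`, `B = 3ω`, and are not collinear: `A₁ + A₃ < 2 A₂`.
-/

set_option autoImplicit false

open Set Filter Topology

namespace Pool.Agent.Results.MP_1ba01c_an.NotCollinear

open Pool.Agent.Work.MP_1ba01c_an

/-- `φ` is a solution, lifted to `ℝ`, of `dφ/dτ = (1/ω) (-sin φ + B + A cos τ)` -/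
def IsSolution (ω B A : ℝ) (φ : ℝ → ℝ) : Prop :=
  ∀ τ, HasDerivAt φ (1 / ω * (-Real.sin (φ τ) + B + A * Real.cos τ)) τ

/-- `ρ` is the rotation number at `(B, A)`: there are solutions, and `φ(τ)/τ → ρ` as `τ → ∞` for
every solution `φ` -/
def HasRotationNumber (ω B A ρ : ℝ) : Prop :=
  (∃ φ, IsSolution ω B A φ) ∧
    ∀ φ, IsSolution ω B A φ → Tendsto (fun τ => φ τ / τ) atTop (𝓝 ρ)

/-- the phase-lock area number `r`, a set of points `(B, A)` -/
def phaseLockArea (ω : ℝ) (r : ℤ) : Set (ℝ × ℝ) := {p | HasRotationNumber ω p.1 p.2 r}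

/-- `p = (B, A)` is an adjacency of the phase-lock area `L_r`: `A ≠ 0` and
`g_{r,-}(A) = g_{r,+}(A) = B`, that is, `B` is both the least and the greatest abscissa of a point
of `L_r` of height `A` -/
def IsAdjacency (ω : ℝ) (r : ℤ) (p : ℝ × ℝ) : Prop :=
  p.2 ≠ 0 ∧ IsLeast {B | (B, p.2) ∈ phaseLockArea ω r} p.1 ∧
    IsGreatest {B | (B, p.2) ∈ phaseLockArea ω r} p.1

/-- `p` is the adjacency `A_{r,k}`: it is an adjacency of `L_r` with `A > 0` and exactly `k - 1`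
adjacencies of `L_r` with `A > 0` have smaller `A`-coordinate -/
def IsAdjacencyNumber (ω : ℝ) (r : ℤ) (k : ℕ) (p : ℝ × ℝ) : Prop :=
  IsAdjacency ω r p ∧ 0 < p.2 ∧
    {q : ℝ × ℝ | IsAdjacency ω r q ∧ 0 < q.2 ∧ q.2 < p.2}.encard + 1 = k

variable {ω B A : ℝ}

lemma isSolution_iff (φ : ℝ → ℝ) :
    IsSolution ω B A φ ↔ IsSol (1 / ω) (B / ω) (A / ω) φ := by
  unfold IsSolution IsSol
  have e : ∀ τ, 1 / ω * (-Real.sin (φ τ) + B + A * Real.cos τ) =
      B / ω + A / ω * Real.cos τ - 1 / ω * Real.sin (φ τ) := by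
    intro τ; ring
  simp only [e]

lemma hasRotationNumber_iff (ρ : ℝ) :
    HasRotationNumber ω B A ρ ↔ HasRot (1 / ω) (B / ω) (A / ω) ρ := by
  unfold HasRotationNumber HasRot
  simp only [isSolution_iff]
  constructor
  · exact fun h => h.2
  · intro h
    obtain ⟨φ, hφ, -⟩ := exists_sol (1 / ω) (B / ω) (A / ω) 0
    exact ⟨⟨φ, hφ⟩, h⟩

lemma isAdjacency_iff (hω : 0 < ω) (r : ℤ) :
    IsAdjacency ω r (B, A) ↔ A ≠ 0 ∧ Adj (1 / ω) (B / ω) (A / ω) r := by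
  unfold IsAdjacency phaseLockArea
  rw [← slice_iff_adj]
  simp only [mem_ofPred_eq, hasRotationNumber_iff]
  constructor
  · rintro ⟨hA, hL, hG⟩
    refine ⟨hA, ?_⟩
    ext b'
    simp only [mem_ofPred_eq, mem_singleton_iff]
    constructor
    · intro h
      have hmem : b' * ω ∈ {B' | HasRot (1 / ω) (B' / ω) (A / ω) r} := by
        simp only [mem_ofPred_eq]
        rw [mul_div_assoc, div_self hω.ne', mul_one]
        exact h
      have h1 := hL.2 hmem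
      have h2 := hG.2 hmem
      rw [eq_div_iff hω.ne']
      exact le_antisymm h2 h1
    · intro h
      rw [h]
      exact hL.1
  · rintro ⟨hA, hS⟩
    have hB : HasRot (1 / ω) (B / ω) (A / ω) r := by
      have : B / ω ∈ {b' | HasRot (1 / ω) b' (A / ω) r} := by rw [hS]; rfl
      exact this
    have huniq : ∀ B', HasRot (1 / ω) (B' / ω) (A / ω) r → B' = B := by
      intro B' h
      have h1 : B' / ω ∈ {b' | HasRot (1 / ω) b' (A / ω) r} := h
      rw [hS, mem_singleton_iff, div_left_inj' hω.ne'] at h1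
      exact h1
    refine ⟨hA, ⟨hB, ?_⟩, ⟨hB, ?_⟩⟩
    · intro B' h; exact (huniq B' h).ge
    · intro B' h; exact (huniq B' h).le

lemma first_of_adj (hω : 0 < ω) (r : ℤ) {a : ℝ} (ha : 0 < a) (hadj : Adj (1 / ω) r a r)
    (hno : ∀ a', 0 < a' → a' < a → ∀ b, ¬ Adj (1 / ω) b a' r) :
    IsAdjacencyNumber ω r 1 (r * ω, a * ω) := by
  have h1 : a * ω ≠ 0 := (mul_pos ha hω).ne'
  refine ⟨?_, mul_pos ha hω, ?_⟩
  · rw [isAdjacency_iff hω]
    refine ⟨h1, ?_⟩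
    rw [mul_div_assoc, mul_div_assoc, div_self hω.ne', mul_one, mul_one]
    exact hadj
  · have he : {q : ℝ × ℝ | IsAdjacency ω r q ∧ 0 < q.2 ∧ q.2 < (r * ω, a * ω).2} = ∅ := by
      rw [eq_empty_iff_forall_notMem]
      rintro ⟨B', A'⟩ ⟨hq, hq0, hq1⟩
      simp only at hq0 hq1
      rw [isAdjacency_iff hω] at hq
      exact hno (A' / ω) (div_pos hq0 hω) ((div_lt_iff₀ hω).mpr hq1) _ hq.2
    rw [he, encard_empty, zero_add, Nat.cast_one]

lemma not_collinear_of (hω : 0 < ω) {A₁ A₂ A₃ : ℝ} (h : A₁ + A₃ < 2 * A₂) :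
    ¬ Collinear ℝ {((ω, A₁) : ℝ × ℝ), (2 * ω, A₂), (3 * ω, A₃)} := by
  intro hc
  rw [collinear_iff_of_mem (p₀ := ((ω, A₁) : ℝ × ℝ)) (by simp)] at hc
  obtain ⟨v, hv⟩ := hc
  obtain ⟨s, hs⟩ := hv (2 * ω, A₂) (by simp)
  obtain ⟨t, ht⟩ := hv (3 * ω, A₃) (by simp)
  simp only [vadd_eq_add, Prod.ext_iff, Prod.fst_add, Prod.snd_add, Prod.smul_fst, Prod.smul_snd,
    smul_eq_mul] at hs ht
  have h1 : s * v.1 = ω := by linarith [hs.1]
  have h2 : t * v.1 = 2 * ω := by linarith [ht.1]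
  have hv1 : v.1 ≠ 0 := by
    intro h0
    rw [h0, mul_zero] at h1
    exact hω.ne' h1.symm
  have h3 : t = 2 * s := by
    have : (t - 2 * s) * v.1 = 0 := by linarith
    rcases mul_eq_zero.mp this with h4 | h4
    · linarith
    · exact absurd h4 hv1
  have h4 := hs.2
  have h5 := ht.2
  rw [h3] at h5
  nlinarith

/-- For every `ω ≥ 100000` the adjacencies `A_{1,1}`, `A_{2,1}`, `A_{3,1}` are defined, are
`(ω, A₁)`, `(2ω, A₂)`, `(3ω, A₃)` with `A₁ + A₃ < 2 A₂`, and are not collinear. Hence it is false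
that for every `ω > 0` and `k ≥ 1` some straight line `a B + b A = c` contains all the defined
points `A_{r,k}`, `r ≥ 1`. -/
theorem result :
    (∀ ω : ℝ, 100000 ≤ ω → ∃ A₁ A₂ A₃ : ℝ,
      IsAdjacencyNumber ω 1 1 (ω, A₁) ∧ IsAdjacencyNumber ω 2 1 (2 * ω, A₂) ∧
      IsAdjacencyNumber ω 3 1 (3 * ω, A₃) ∧ A₁ + A₃ < 2 * A₂ ∧
      ¬ Collinear ℝ {((ω, A₁) : ℝ × ℝ), (2 * ω, A₂), (3 * ω, A₃)}) ∧
    ¬ (∀ ω : ℝ, 0 < ω → ∀ k : ℕ, 1 ≤ k → ∃ a b c : ℝ, (a, b) ≠ (0, 0) ∧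
      ∀ r : ℤ, 1 ≤ r → ∀ p : ℝ × ℝ, IsAdjacencyNumber ω r k p → a * p.1 + b * p.2 = c) := by
  have main : ∀ ω : ℝ, 100000 ≤ ω → ∃ A₁ A₂ A₃ : ℝ,
      IsAdjacencyNumber ω 1 1 (ω, A₁) ∧ IsAdjacencyNumber ω 2 1 (2 * ω, A₂) ∧
      IsAdjacencyNumber ω 3 1 (3 * ω, A₃) ∧ A₁ + A₃ < 2 * A₂ := by
    intro ω hω
    have hω0 : 0 < ω := by linarith
    have hε0 : 0 < 1 / ω := by positivity
    have hε : 1 / ω ≤ 0.00001 := by
      rw [div_le_iff₀ hω0]
      linarith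
    obtain ⟨a₁, a₂, a₃, p1, p2, p3, h1, h2, h3, ⟨q1, n1⟩, ⟨q2, n2⟩, ⟨q3, n3⟩⟩ :=
      three_heights hε0 hε
    refine ⟨a₁ * ω, a₂ * ω, a₃ * ω, ?_, ?_, ?_, ?_⟩
    · have := first_of_adj hω0 1 p1 (by simpa using q1) n1
      simpa using this
    · have := first_of_adj hω0 2 p2 (by simpa using q2) n2
      simpa using this
    · have := first_of_adj hω0 3 p3 (by simpa using q3) n3
      simpa using this
    · nlinarith
  refine ⟨?_, ?_⟩
  · intro ω hω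
    obtain ⟨A₁, A₂, A₃, h1, h2, h3, h4⟩ := main ω hω
    exact ⟨A₁, A₂, A₃, h1, h2, h3, h4, not_collinear_of (by linarith) h4⟩
  · intro hcon
    obtain ⟨A₁, A₂, A₃, h1, h2, h3, h4⟩ := main 100000 le_rfl
    obtain ⟨a, b, c, hab, hall⟩ := hcon 100000 (by norm_num) 1 le_rfl
    have e1 := hall 1 le_rfl _ h1
    have e2 := hall 2 (by norm_num) _ h2
    have e3 := hall 3 (by norm_num) _ h3
    simp only at e1 e2 e3
    have hb : b * (A₁ + A₃ - 2 * A₂) = 0 := by linarith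
    have hb0 : b = 0 := by
      rcases mul_eq_zero.mp hb with h | h
      · exact h
      · linarith
    have ha0 : a = 0 := by
      rw [hb0] at e1 e2
      linarith
    exact hab (by rw [ha0, hb0])

end Pool.Agent.Results.MP_1ba01c_an.NotCollinear
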